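import Pool.Agent.Y202.U.Stm

/-!
# Project Y202/U: UD (generator at the uniform law) and GE (generator on one- and two-point functions)
-/

namespace Pool.Agent.Y458.U

open Finset Pool.Agent.W788.NV Pool.Agent.Y202.U

/-- the generator, site by site -/
theorem gf_site {V : Type} [Fintype V] [DecidableEq V] (G : SimpleGraph V) (q : ℕ) (θ : ℝ)
    (F : (V → Fin q) → ℝ) (x : V → Fin q) :
    gf (mrate G q θ) (act (V := V) (q := q)) F x =
      ∑ v, ((∑ c : Fin q, θ / q * (F (Function.update x v c) - F x)) +
        ∑ w, mrate G q θ (Sum.inr (v, w)) * (F (Function.update x v (x w)) - F x)) := by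
  unfold gf
  rw [Fintype.sum_sum_type, Fintype.sum_prod_type, Fintype.sum_prod_type, ← Finset.sum_add_distrib]
  rfl

/-- the total rate of copies -/
theorem sum_mrate {V : Type} [Fintype V] (G : SimpleGraph V) (q : ℕ) (θ : ℝ) (v : V)
    (hd : 1 ≤ dg G v) : ∑ w, mrate G q θ (Sum.inr (v, w)) = 1 - θ := by
  classical
  have h : ∀ w, mrate G q θ (Sum.inr (v, w)) =
      if G.Adj v w then (1 - θ) / (dg G v : ℝ) else 0 := by
    intro w
    simp only [mrate]
  simp_rw [h]
  rw [← Finset.sum_filter, Finset.sum_const]
  have hc : (univ.filter (fun w => G.Adj v w)).card = dg G v := by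
    unfold dg
    congr
  rw [hc, nsmul_eq_mul]
  have : (dg G v : ℝ) ≠ 0 := by positivity
  field_simp

theorem sum_et {q : ℕ} (hq : 2 ≤ q) (d : Fin q) :
    ∑ c : Fin q, ((if c = d then (1 : ℝ) else 0) - 1 / (q : ℝ)) = 0 := by
  rw [Finset.sum_sub_distrib]
  simp
  have : (q : ℝ) ≠ 0 := by positivity
  field_simp
  simp

theorem ge : S_GE := by
  intro V _ _ G q θ Δ hA x
  have hq := hA.q2
  have hq0 : (q : ℝ) ≠ 0 := by positivity
  constructor
  · intro c v
    rw [gf_site, Finset.sum_eq_single v]
    · have h1 : ∀ d : Fin q, et c v (Function.update x v d) =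
          (if d = c then (1 : ℝ) else 0) - 1 / (q : ℝ) := by
        intro d; simp [et]
      have h2 : ∀ w : V, et c v (Function.update x v (x w)) = et c w x := by
        intro w; simp [et]
      simp_rw [h2, h1]
      rw [← Finset.mul_sum, Finset.sum_sub_distrib, sum_et hq c]
      rw [Finset.sum_congr rfl (fun w _ => mul_sub _ _ _)]
      rw [Finset.sum_sub_distrib, ← Finset.sum_mul, sum_mrate G q θ v (hA.d1 v)]
      simp only [Finset.sum_const, Finset.card_univ, Fintype.card_fin, nsmul_eq_mul]
      field_simp
      ring
    · intro u _ hu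
      have h1 : ∀ d : Fin q, et c v (Function.update x u d) = et c v x := by
        intro d; simp [et, Function.update_of_ne (Ne.symm hu)]
      simp_rw [h1]
      simp
    · intro h; exact absurd (Finset.mem_univ v) h
  · intro a b hab
    rw [gf_site]
    have key : ∀ v : V, ((∑ c : Fin q, θ / q * (hh a b (Function.update x v c) - hh a b x)) +
        ∑ w, mrate G q θ (Sum.inr (v, w)) * (hh a b (Function.update x v (x w)) - hh a b x)) =
        (if v = a then (-hh a b x + ∑ a', mrate G q θ (Sum.inr (a, a')) * hh a' b x) else 0) +
        (if v = b then (-hh a b x + ∑ b', mrate G q θ (Sum.inr (b, b')) * hh a b' x) else 0) := by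
      intro v
      by_cases hva : v = a
      · subst hva
        rw [if_pos rfl, if_neg hab, add_zero]
        have h1 : ∀ d : Fin q, hh v b (Function.update x v d) =
            (if d = x b then (1 : ℝ) else 0) - 1 / (q : ℝ) := by
          intro d; simp [hh, Function.update_of_ne (Ne.symm hab)]
        have h2 : ∀ w : V, hh v b (Function.update x v (x w)) = hh w b x := by
          intro w; simp [hh, Function.update_of_ne (Ne.symm hab)]
        simp_rw [h2, h1]
        rw [← Finset.mul_sum, Finset.sum_sub_distrib, sum_et hq (x b)]
        rw [Finset.sum_congr rfl (fun w _ => mul_sub _ _ _)]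
        rw [Finset.sum_sub_distrib, ← Finset.sum_mul, sum_mrate G q θ v (hA.d1 v)]
        simp only [Finset.sum_const, Finset.card_univ, Fintype.card_fin, nsmul_eq_mul]
        field_simp
        ring
      · by_cases hvb : v = b
        · subst hvb
          rw [if_neg hva, if_pos rfl, zero_add]
          have h1 : ∀ d : Fin q, hh a v (Function.update x v d) =
              (if d = x a then (1 : ℝ) else 0) - 1 / (q : ℝ) := by
            intro d; simp [hh, Function.update_of_ne hab, eq_comm]
          have h2 : ∀ w : V, hh a v (Function.update x v (x w)) = hh a w x := by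
            intro w; simp [hh, Function.update_of_ne hab]
          simp_rw [h2, h1]
          rw [← Finset.mul_sum, Finset.sum_sub_distrib, sum_et hq (x a)]
          rw [Finset.sum_congr rfl (fun w _ => mul_sub _ _ _)]
          rw [Finset.sum_sub_distrib, ← Finset.sum_mul, sum_mrate G q θ v (hA.d1 v)]
          simp only [Finset.sum_const, Finset.card_univ, Fintype.card_fin, nsmul_eq_mul]
          field_simp
          ring
        · rw [if_neg hva, if_neg hvb]
          have h1 : ∀ d : Fin q, hh a b (Function.update x v d) = hh a b x := by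
            intro d
            simp [hh, Function.update_of_ne (Ne.symm hva), Function.update_of_ne (Ne.symm hvb)]
          simp_rw [h1]
          simp
    simp_rw [key]
    rw [Finset.sum_add_distrib, Finset.sum_ite_eq' univ a, Finset.sum_ite_eq' univ b,
      if_pos (Finset.mem_univ _), if_pos (Finset.mem_univ _)]
    ring

/-! ## the uniform law -/

/-- averaging over the colour at `v` -/
theorem un_avg {V : Type} [Fintype V] [DecidableEq V] {q : ℕ} (v : V) (f : (V → Fin q) → ℝ) :
    ∑ c : Fin q, un (fun x => f (Function.update x v c)) = q * un f := by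
  classical
  unfold un
  rw [← Finset.sum_div, mul_div_assoc']
  congr 1
  rw [Finset.sum_comm]
  have h : ∀ x : V → Fin q, ∑ c : Fin q, f (Function.update x v c) =
      ∑ y : V → Fin q, if (∀ w, w ≠ v → y w = x w) then f y else 0 := by
    intro x
    rw [← Finset.sum_filter]
    refine Finset.sum_bij (fun c _ => Function.update x v c) ?_ ?_ ?_ ?_
    · intro c _
      simp only [Finset.mem_filter, Finset.mem_univ, true_and]
      intro w hw
      simp [Function.update_of_ne hw]
    · intro c _ c' _ h
      have := congrFun h v
      simpa using this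
    · intro y hy
      simp only [Finset.mem_filter, Finset.mem_univ, true_and] at hy
      refine ⟨y v, Finset.mem_univ _, ?_⟩
      funext w
      by_cases hw : w = v
      · subst hw; simp
      · rw [Function.update_of_ne hw, hy w hw]
    · intro c _; rfl
  simp_rw [h]
  rw [Finset.sum_comm]
  have h2 : ∀ y : V → Fin q, ∑ x : V → Fin q, (if (∀ w, w ≠ v → y w = x w) then f y else 0) =
      q * f y := by
    intro y
    rw [← Finset.sum_filter, Finset.sum_const, nsmul_eq_mul]
    congr 1
    have : (univ.filter (fun x : V → Fin q => ∀ w, w ≠ v → y w = x w)).card =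
        (univ : Finset (Fin q)).card := by
      symm
      refine Finset.card_bij (fun c _ => Function.update y v c) ?_ ?_ ?_
      · intro c _
        simp only [Finset.mem_filter, Finset.mem_univ, true_and]
        intro w hw
        simp [Function.update_of_ne hw]
      · intro c _ c' _ h
        have := congrFun h v
        simpa using this
      · intro x hx
        simp only [Finset.mem_filter, Finset.mem_univ, true_and] at hx
        refine ⟨x v, Finset.mem_univ _, ?_⟩
        funext w
        by_cases hw : w = v
        · subst hw; simp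
        · rw [Function.update_of_ne hw, hx w hw]
    rw [this]
    simp
  simp_rw [h2]
  rw [← Finset.mul_sum]

/-- the two-site averages -/
noncomputable def AA {V : Type} [Fintype V] [DecidableEq V] {q : ℕ} (v w : V)
    (f : (V → Fin q) → ℝ) (d d' : Fin q) : ℝ :=
  un (fun x => f (Function.update (Function.update x v d) w d'))

theorem un_avg2 {V : Type} [Fintype V] [DecidableEq V] {q : ℕ} (v w : V)
    (f : (V → Fin q) → ℝ) : ∑ d : Fin q, ∑ d' : Fin q, AA v w f d d' = (q : ℝ) ^ 2 * un f := by
  rw [Finset.sum_comm]
  have h : ∀ d' : Fin q, ∑ d : Fin q, AA v w f d d' =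
      q * un (fun x => f (Function.update x w d')) := by
    intro d'
    unfold AA
    exact un_avg v (fun x => f (Function.update x w d'))
  simp_rw [h]
  rw [← Finset.mul_sum, un_avg]
  ring

theorem un_sub {V : Type} [Fintype V] [DecidableEq V] {q : ℕ} (f g : (V → Fin q) → ℝ) :
    un (fun x => f x - g x) = un f - un g := by
  unfold un
  rw [Finset.sum_sub_distrib, sub_div]

theorem un_copy {V : Type} [Fintype V] [DecidableEq V] {q : ℕ} (hq : 2 ≤ q) (v w : V)
    (hvw : v ≠ w) (f : (V → Fin q) → ℝ) :
    un (fun x => f (Function.update x v (x w))) = (1 / (q : ℝ)) * ∑ d : Fin q, AA v w f d d := by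
  have h := un_avg2 v w (fun x => f (Function.update x v (x w)))
  have h1 : ∀ d d' : Fin q, AA v w (fun x => f (Function.update x v (x w))) d d' =
      AA v w f d' d' := by
    intro d d'
    unfold AA
    congr 1
    funext x
    simp only [Function.update_self]
    rw [Function.update_comm hvw, Function.update_idem, Function.update_comm hvw.symm]
  simp_rw [h1] at h
  rw [Finset.sum_const] at h
  simp only [Finset.card_univ, Fintype.card_fin, nsmul_eq_mul] at h
  have hq0 : (q : ℝ) ≠ 0 := by positivity
  have : (q : ℝ) * (∑ d' : Fin q, AA v w f d' d' -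
      q * un (fun x => f (Function.update x v (x w)))) = 0 := by
    rw [mul_sub, h]; ring
  have h3 := (mul_eq_zero.mp this).resolve_left hq0
  field_simp
  linarith

theorem Dl_pair (h0 : S_C0) {V : Type} [Fintype V] [DecidableEq V] {q : ℕ} (v w : V)
    (hvw : v ≠ w) (f : (V → Fin q) → ℝ) (d d' : Fin q) (x : V → Fin q) :
    Dl {v, w} (fun _ => d) (fun _ => d') f x =
      f (Function.update (Function.update x v d) w d) -
      f (Function.update (Function.update x v d) w d') -
      (f (Function.update (Function.update x v d') w d) -
      f (Function.update (Function.update x v d') w d')) := by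
  have hE : ∀ y, Dl (∅ : Finset V) (fun _ => d) (fun _ => d') f y = f y := by
    intro y
    unfold Dl mix
    simp
  have hW : ∀ y, Dl ({w} : Finset V) (fun _ => d) (fun _ => d') f y =
      f (Function.update y w d) - f (Function.update y w d') := by
    intro y
    have := (h0 V q ∅ (fun _ => d) (fun _ => d') f y).1 w (by simp)
    rw [hE, hE] at this
    simpa using this
  have := (h0 V q {w} (fun _ => d) (fun _ => d') f x).1 v (by simpa using hvw)
  rw [hW, hW] at this
  exact this

theorem un_Dl (h0 : S_C0) {V : Type} [Fintype V] [DecidableEq V] {q : ℕ} (v w : V)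
    (hvw : v ≠ w) (f : (V → Fin q) → ℝ) (d d' : Fin q) :
    un (Dl {v, w} (fun _ => d) (fun _ => d') f) =
      AA v w f d d - AA v w f d d' - (AA v w f d' d - AA v w f d' d') := by
  have : Dl {v, w} (fun _ => d) (fun _ => d') f = fun x =>
      f (Function.update (Function.update x v d) w d) -
      f (Function.update (Function.update x v d) w d') -
      (f (Function.update (Function.update x v d') w d) -
      f (Function.update (Function.update x v d') w d')) := by
    funext x; exact Dl_pair h0 v w hvw f d d' x
  rw [this, un_sub, un_sub, un_sub]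
  rfl

theorem ud (h0 : S_C0) : S_UD := by
  intro V _ _ G q θ Δ hA f
  have hq := hA.q2
  have hq0 : (q : ℝ) ≠ 0 := by positivity
  have h1 : un (gf (mrate G q θ) (act (V := V) (q := q)) f) =
      ∑ v, ((∑ c : Fin q, θ / q * (un (fun x => f (Function.update x v c)) - un f)) +
        ∑ w, mrate G q θ (Sum.inr (v, w)) *
          (un (fun x => f (Function.update x v (x w))) - un f)) := by
    unfold un
    simp_rw [gf_site]
    rw [Finset.sum_comm, Finset.sum_div]
    refine Finset.sum_congr rfl (fun v _ => ?_)
    rw [Finset.sum_add_distrib, add_div]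
    congr 1
    · rw [Finset.sum_comm, Finset.sum_div]
      refine Finset.sum_congr rfl (fun c _ => ?_)
      rw [← Finset.mul_sum, Finset.sum_sub_distrib, mul_div_assoc, sub_div]
    · rw [Finset.sum_comm, Finset.sum_div]
      refine Finset.sum_congr rfl (fun c _ => ?_)
      rw [← Finset.mul_sum, Finset.sum_sub_distrib, mul_div_assoc, sub_div]
  rw [h1]
  refine Finset.sum_congr rfl (fun v _ => ?_)
  have h2 : ∑ c : Fin q, θ / q * (un (fun x => f (Function.update x v c)) - un f) = 0 := by
    rw [← Finset.mul_sum, Finset.sum_sub_distrib, un_avg]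
    simp
  rw [h2, zero_add]
  refine Finset.sum_congr rfl (fun w _ => ?_)
  by_cases hvw : v = w
  · subst hvw
    have : mrate G q θ (Sum.inr (v, v)) = 0 := by
      unfold mrate
      simp
    rw [this]; simp
  · congr 1
    rw [un_copy hq v w hvw]
    simp_rw [un_Dl h0 v w hvw]
    have h3 := un_avg2 v w f
    have h4 : ∑ d : Fin q, ∑ d' : Fin q,
        (AA v w f d d - AA v w f d d' - (AA v w f d' d - AA v w f d' d')) =
        2 * q * ∑ d : Fin q, AA v w f d d - 2 * ((q : ℝ) ^ 2 * un f) := by
      simp_rw [Finset.sum_sub_distrib]
      rw [h3]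
      have h5 : ∑ d : Fin q, ∑ d' : Fin q, AA v w f d' d = (q : ℝ) ^ 2 * un f := by
        rw [Finset.sum_comm, h3]
      rw [h5]
      have h6 : ∑ d : Fin q, ∑ _d' : Fin q, AA v w f d d = q * ∑ d : Fin q, AA v w f d d := by
        simp [Finset.mul_sum]
      have h7 : ∑ _d : Fin q, ∑ d' : Fin q, AA v w f d' d' = q * ∑ d : Fin q, AA v w f d d := by
        simp
      rw [h6, h7]
      ring
    rw [h4]
    field_simp

end Pool.Agent.Y458.U
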